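import Pool.Agent.MP_089608_lc.H36.Main

/-!
Under GCH, for every singular cardinal `l`, with `κ = l⁺`, and every cardinal `η > 1`, the polarized
relation `(κ, κ) → (κ l / κ η)` fails.
-/

set_option autoImplicit false

open Cardinal

universe u

namespace Pool.Agent.Results.MP_089608_lc.FailsAll

theorem result (hGCH : ∀ μ : Cardinal.{u}, ℵ₀ ≤ μ → 2 ^ μ = Order.succ μ)
    (l : Cardinal.{u}) (hl : l.IsSingular) (η : Cardinal.{u}) (hη : 1 < η) :
    ¬ ∀ Δ₀ Δ₁ : Set ((Order.succ l).ord.ToType × (Order.succ l).ord.ToType),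
      Disjoint Δ₀ Δ₁ → Δ₀ ∪ Δ₁ = Set.univ →
        (∃ H₁ H₂ : Set (Order.succ l).ord.ToType,
          #H₁ = Order.succ l ∧ #H₂ = Order.succ l ∧ H₁ ×ˢ H₂ ⊆ Δ₀) ∨
        (∃ H₁ H₂ : Set (Order.succ l).ord.ToType,
          #H₁ = l ∧ #H₂ = η ∧ H₁ ×ˢ H₂ ⊆ Δ₁) := by
  intro h
  obtain ⟨I, lam, hinf, hI, hcof, hlt⟩ := Pool.Agent.MP_089608_lc.H36.exists_cofinal hl
  have hK : #(Order.succ l).ord.ToType = Order.succ l := mk_ord_toType _
  have hIio : ∀ a : (Order.succ l).ord.ToType, #(Set.Iio a) ≤ l := fun a => by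
    have := Cardinal.mk_Iio_lt a (by rw [hK]; exact (Ordinal.type_toType _).symm)
    rw [hK] at this
    exact Order.lt_succ_iff.1 this
  obtain ⟨A, hA1, hA2⟩ := Pool.Agent.MP_089608_lc.H36.exists_family hl.aleph0_le hK
    (hGCH l hl.aleph0_le) hIio lam hinf hI hcof hlt (fun i => by
      rw [hGCH _ (hinf i)]
      exact Order.succ_le_of_lt (hlt i))
  rcases h {p | p.1 ∉ A p.2} {p | p.1 ∈ A p.2}
      (Set.disjoint_left.2 fun p h1 h2 => h1 h2)
      (by ext p; simp [em']) with ⟨H₁, H₂, h1, h2, h3⟩ | ⟨H₁, H₂, h1, h2, h3⟩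
  · obtain ⟨a, ha⟩ := hA2 H₁ ((Order.lt_succ l).trans_eq h1.symm)
    obtain ⟨y, hy, hay⟩ := Pool.Agent.MP_089608_lc.H36.exists_gt_of_large hl.aleph0_le hIio H₂
      ((Order.lt_succ l).trans_eq h2.symm) a
    obtain ⟨x, hx1, hx2⟩ := ha y hay
    exact h3 (Set.mk_mem_prod hx2 hy) hx1
  · have hnt : H₂.Nontrivial := by
      rw [← Set.nontrivial_coe_sort, ← Cardinal.one_lt_iff_nontrivial, h2]
      exact hη
    obtain ⟨s, hs, y, hy, hsy⟩ := hnt.exists_lt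
    refine (hA1 s y hsy).not_ge (h1.ge.trans (mk_le_mk_of_subset fun x hx => ?_))
    exact ⟨h3 (Set.mk_mem_prod hx hy), h3 (Set.mk_mem_prod hx hs)⟩

end Pool.Agent.Results.MP_089608_lc.FailsAll
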